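import Pool.Agent.X14.QG3

/-!
# A q-congruence modulo Gaussian binomials for an `8k+1` sum
-/

set_option autoImplicit false

namespace Pool.Agent.Results.MP_8a5308_nt.BothBinomials

open Finset Polynomial

noncomputable section

/-- The indeterminate `q`, as an element of `ℚ(q)`. -/
def q : RatFunc ℚ := RatFunc.X

/-- The q-integer `[m] = (1 - q^m)/(1 - q)`. -/
def qint (m : ℕ) : RatFunc ℚ := (1 - q ^ m) / (1 - q)

/-- The q-shifted factorial `(a; x)_m = (1 - a)(1 - a x) ⋯ (1 - a x^{m-1})`. -/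
def qp (a x : RatFunc ℚ) (m : ℕ) : RatFunc ℚ := ∏ j ∈ range m, (1 - a * x ^ j)

/-- The Gaussian binomial coefficient `(q;q)_m / ((q;q)_j (q;q)_{m-j})`. -/
def gauss (m j : ℕ) : RatFunc ℚ := qp q q m / (qp q q j * qp q q (m - j))

/-- `R_{n,k}(q)`. -/
def R (n k : ℕ) : RatFunc ℚ :=
  (qp (-q) q n / qp (-q) q k) ^ 4 * (qp (-q) q (2 * n) / qp (-q) q (2 * k)) ^ 2 *
    (qp (q ^ 2) (q ^ 2) k * qp (q ^ 6) (q ^ 6) n / (qp (q ^ 2) (q ^ 2) n * qp (q ^ 6) (q ^ 6) k)) ^ 2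

/-- `F_n(q)`. -/
def F (n : ℕ) : RatFunc ℚ :=
  ∑ k ∈ range (n + 1), qint (8 * k + 1) * q ^ (2 * k ^ 2) * gauss (4 * k) (2 * k) * gauss (2 * k) k ^ 2 * R n k

/-- The inclusion of `ℤ[q]` in `ℚ(q)`. -/
def emb (A : ℤ[X]) : RatFunc ℚ := algebraMap ℚ[X] (RatFunc ℚ) (A.map (Int.castRingHom ℚ))

open Pool.Agent.X14 QL QBlock
open Pool.Agent.X14.PA (bz fz az adc)

lemma emb_eq (A : ℤ[X]) : emb A = az A := rfl

lemma q_def : q = QL.q := rfl

lemma qp_self (s : ℕ) (m : ℕ) : qp (q ^ s) (q ^ s) m = pp s m := by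
  unfold qp pp
  apply prod_congr rfl
  intro j _
  rw [q_def, ← pow_mul, ← pow_add]; congr 2; ring

lemma qp_one (m : ℕ) : qp q q m = pp 1 m := by
  have := qp_self 1 m
  rwa [pow_one] at this

lemma az_fz (m : ℕ) : az (fz m) * (1 - q) ^ m = pp 1 m := by
  unfold fz pp
  rw [map_prod]
  have h1 : (1 - q) ≠ 0 := by
    have := one_sub_ne (j := 1) one_pos
    rwa [pow_one] at this
  induction m with
  | zero => simp
  | succ m ih =>
    rw [prod_range_succ, prod_range_succ, ← ih, PA.az_bz, pow_succ, one_mul, ← q_def]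
    field_simp
    ring

lemma gauss_az {g : ℤ[X]} {a b : ℕ} (hg : g * (fz a * fz b) = fz (a + b)) : gauss (a + b) a = az g := by
  have h1 : (1 - q) ≠ 0 := by
    have := one_sub_ne (j := 1) one_pos
    rwa [pow_one] at this
  unfold gauss
  rw [Nat.add_sub_cancel_left, qp_one, qp_one, qp_one]
  rw [div_eq_iff (mul_ne_zero (pp_ne one_pos _) (pp_ne one_pos _)), ← az_fz, ← az_fz, ← az_fz, ← hg, map_mul, map_mul, pow_add]
  ring

lemma gauss_poly (a b : ℕ) : ∃ g : ℤ[X], g * (fz a * fz b) = fz (a + b) := PA.gz_exists (a + b) a b rfl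

lemma qp_neg_ne (m : ℕ) : qp (-q) q m ≠ 0 := by
  unfold qp
  rw [prod_ne_zero_iff]
  intro j _ h0
  have h1 : (1 - (-q) * q ^ j) * (1 - q ^ (j + 1)) = 1 - q ^ (2 * (j + 1)) := by ring
  rw [h0, zero_mul] at h1
  exact one_sub_ne (j := 2 * (j + 1)) (by omega) h1.symm

lemma qp_neg (m : ℕ) : qp (-q) q m * pp 1 m = pp 2 m := by
  unfold qp pp
  rw [← prod_mul_distrib]
  apply prod_congr rfl
  intro j _
  rw [← q_def]; ring

/-- ratios `(-q;q)_n/(-q;q)_k` are polynomials -/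
lemma ratio_poly {k n : ℕ} (h : k ≤ n) : ∃ A : ℤ[X], qp (-q) q n / qp (-q) q k = az A := by
  refine ⟨adc k n, ?_⟩
  rw [div_eq_iff (qp_neg_ne k)]
  unfold adc
  rw [map_prod]
  have h1 : ∀ i, az (1 + X ^ (i + 1)) = 1 - (-q) * q ^ i := by
    intro i
    rw [map_add, map_one, map_pow, PA.az_X, ← q_def]; ring
  simp only [h1]
  unfold qp
  rw [mul_comm]
  rw [range_eq_Ico, range_eq_Ico, prod_Ico_consecutive _ (Nat.zero_le _) h]

lemma ratio_poly' {k n : ℕ} (h : k ≤ n) :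
    ∃ A : ℤ[X], qp (q ^ 2) (q ^ 2) k * qp (q ^ 6) (q ^ 6) n / (qp (q ^ 2) (q ^ 2) n * qp (q ^ 6) (q ^ 6) k) = az A := by
  refine ⟨∏ i ∈ Ico k n, (1 + X ^ (2 * (i + 1)) + X ^ (4 * (i + 1))), ?_⟩
  rw [qp_self, qp_self, qp_self, qp_self, div_eq_iff (mul_ne_zero (pp_ne (by norm_num) _) (pp_ne (by norm_num) _)), map_prod]
  have h1 : ∀ i, az (1 + X ^ (2 * (i + 1)) + X ^ (4 * (i + 1))) = 1 + q ^ (2 * (i + 1)) + q ^ (4 * (i + 1)) := by
    intro i
    rw [map_add, map_add, map_one, map_pow, map_pow, PA.az_X, ← q_def]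
  simp only [h1]
  have h2 : ∀ s, pp s n = pp s k * ∏ i ∈ Ico k n, (1 - QL.q ^ (s * (i + 1))) := by
    intro s
    unfold pp
    rw [range_eq_Ico, range_eq_Ico, prod_Ico_consecutive _ (Nat.zero_le _) h]
  rw [h2 2, h2 6]
  have h3 : (∏ i ∈ Ico k n, (1 - QL.q ^ (6 * (i + 1)))) =
      (∏ i ∈ Ico k n, (1 + q ^ (2 * (i + 1)) + q ^ (4 * (i + 1)))) * ∏ i ∈ Ico k n, (1 - QL.q ^ (2 * (i + 1))) := by
    rw [← prod_mul_distrib]
    apply prod_congr rfl
    intro i _
    rw [← q_def]; ring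
  rw [h3]
  ring

/-- `F_n` is a polynomial with integer coefficients -/
lemma F_poly (n : ℕ) : ∃ A : ℤ[X], F n = az A := by
  have h1 : ∀ k ∈ range (n + 1), ∃ A : ℤ[X],
      qint (8 * k + 1) * q ^ (2 * k ^ 2) * gauss (4 * k) (2 * k) * gauss (2 * k) k ^ 2 * R n k = az A := by
    intro k hk
    rw [mem_range] at hk
    obtain ⟨g1, hg1⟩ := gauss_poly (2 * k) (2 * k)
    obtain ⟨g2, hg2⟩ := gauss_poly k k
    obtain ⟨r1, hr1⟩ := ratio_poly (show k ≤ n by omega)
    obtain ⟨r2, hr2⟩ := ratio_poly (show 2 * k ≤ 2 * n by omega)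
    obtain ⟨r3, hr3⟩ := ratio_poly' (show k ≤ n by omega)
    have e1 := gauss_az hg1
    have e2 := gauss_az hg2
    rw [show 2 * k + 2 * k = 4 * k by ring] at e1
    rw [show k + k = 2 * k by ring] at e2
    have e3 : qint (8 * k + 1) = az (bz (8 * k + 1)) := by
      rw [PA.az_bz]; rfl
    have e4 : q ^ (2 * k ^ 2) = az (X ^ (2 * k ^ 2)) := by
      rw [map_pow, PA.az_X, q_def]
    refine ⟨bz (8 * k + 1) * X ^ (2 * k ^ 2) * g1 * g2 ^ 2 * (r1 ^ 4 * r2 ^ 2 * r3 ^ 2), ?_⟩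
    unfold R
    rw [e1, e2, e3, hr1, hr2, hr3, e4]
    simp only [map_mul, map_pow]
  choose! A hA using h1
  refine ⟨∑ k ∈ range (n + 1), A k, ?_⟩
  unfold F
  rw [map_sum]
  exact sum_congr rfl hA

lemma F_eq (n : ℕ) : F n = (1 - q)⁻¹ * ((∑ k ∈ range (n + 1), T8 k) * Cn n) := by
  unfold F
  rw [sum_mul, mul_sum]
  apply sum_congr rfl
  intro k _
  unfold gauss R T8 t8 Cn qint
  rw [show 4 * k - 2 * k = 2 * k by omega, show 2 * k - k = k by omega]
  simp only [qp_self, qp_one]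
  have hE : e (8 * (k : ℤ) + 1) = 1 - q ^ (8 * k + 1) := by
    rw [show (8 * (k : ℤ) + 1) = ((8 * k + 1 : ℕ) : ℤ) by push_cast; ring, e_nat, q_def]
  have a1 : ∀ m, qp (-q) q m = pp 2 m / pp 1 m := fun m => by
    rw [← qp_neg, mul_div_cancel_right₀ _ (pp_ne one_pos m)]
  rw [hE, a1, a1, a1, a1, ← q_def]
  have p1 := pp_ne one_pos k
  have p2 := pp_ne one_pos (2 * k)
  have p3 := pp_ne one_pos n
  have p4 := pp_ne one_pos (2 * n)
  have p5 := pp_ne (s := 2) (by norm_num) k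
  have p6 := pp_ne (s := 2) (by norm_num) (2 * k)
  have p7 := pp_ne (s := 2) (by norm_num) n
  have p8 := pp_ne (s := 6) (by norm_num) k
  have h1 : (1 - q) ≠ 0 := by
    have := one_sub_ne (j := 1) one_pos
    rwa [pow_one] at this
  generalize q ^ (2 * k ^ 2) = Q at *
  generalize pp 1 k = x1 at *
  generalize pp 1 (2 * k) = x2 at *
  generalize pp 1 n = x3 at *
  generalize pp 1 (2 * n) = x4 at *
  generalize pp 2 k = x5 at *
  generalize pp 2 (2 * k) = x6 at *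
  generalize pp 2 n = x7 at *
  generalize pp 6 k = x8 at *
  field_simp

lemma F_QO {n d : ℕ} (hd : 1 < d) (hr : d ≤ 3 * (n % d)) : QO (cyclotomic d ℚ) 1 (F n) := by
  rw [F_eq]
  refine QO.mul_left ?_ (sum_QO hd hr)
  have := inv_one_sub_mem (N := d) (b := 1) (by
    intro h; have := Nat.le_of_dvd one_pos h; omega)
  rwa [pow_one] at this

/-- **Positive answers to Q1 and Q2.** For every positive `n`, `F_n(q)` and the Gaussian binomial
coefficients `[2n, n]`, `[3n, n]` are polynomials with integer coefficients, and `F_n(q)` is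
divisible in `ℤ[q]` by each of these two Gaussian binomial coefficients. -/
theorem result (n : ℕ) (_hn : 0 < n) : ∃ A G H : ℤ[X], F n = emb A ∧ gauss (2 * n) n = emb G ∧ gauss (3 * n) n = emb H ∧
    G ∣ A ∧ H ∣ A := by
  obtain ⟨A, hA⟩ := F_poly n
  obtain ⟨G, hG⟩ := gauss_poly n n
  obtain ⟨H, hH⟩ := gauss_poly n (2 * n)
  have e1 := gauss_az hG
  have e2 := gauss_az hH
  rw [show n + n = 2 * n by ring] at e1
  rw [show n + 2 * n = 3 * n by ring] at e2
  refine ⟨A, G, H, hA, e1, e2, gauss_dvd hG (fun d hd h => ?_), gauss_dvd hH (fun d hd h => ?_)⟩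
  · rw [← hA]
    apply F_QO hd
    by_contra hlt
    apply h
    have hd0 : 0 < d := by omega
    have e3 : (n + n) / d = 2 * (n / d) + 2 * (n % d) / d := by
      conv_lhs => rw [← Nat.div_add_mod n d]
      rw [show d * (n / d) + n % d + (d * (n / d) + n % d) = d * (2 * (n / d)) + 2 * (n % d) by ring, Nat.mul_add_div hd0]
    have e4 : 2 * (n % d) / d = 0 := Nat.div_eq_of_lt (by omega)
    omega
  · rw [← hA]
    apply F_QO hd
    by_contra hlt
    apply h
    have hd0 : 0 < d := by omega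
    have e3 : (n + 2 * n) / d = 3 * (n / d) + 3 * (n % d) / d := by
      conv_lhs => rw [← Nat.div_add_mod n d]
      rw [show d * (n / d) + n % d + 2 * (d * (n / d) + n % d) = d * (3 * (n / d)) + 3 * (n % d) by ring, Nat.mul_add_div hd0]
    have e4 : 3 * (n % d) / d = 0 := Nat.div_eq_of_lt (by omega)
    have e5 : 2 * n / d = 2 * (n / d) + 2 * (n % d) / d := by
      conv_lhs => rw [← Nat.div_add_mod n d]
      rw [show 2 * (d * (n / d) + n % d) = d * (2 * (n / d)) + 2 * (n % d) by ring, Nat.mul_add_div hd0]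
    have e6 : 2 * (n % d) / d = 0 := Nat.div_eq_of_lt (by omega)
    omega

end

end Pool.Agent.Results.MP_8a5308_nt.BothBinomials
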